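import Pool.Agent.Lib.MP_03ba20_al.W.Nb
import Pool.Agent.Lib.MP_03ba20_al.W.Order

/-! The Weiss conjecture: vertex stabilisers are bounded in terms of the valency. -/

namespace Pool.Agent.Results.MP_03ba20_al.StabBound

open MulAction Pool.Agent.Lib.MP_03ba20_al.W

theorem result : ∃ f : ℕ → ℕ, ∀ (G V : Type) [Group G] [MulAction G V] [FaithfulSMul G V]
    (Γ : SimpleGraph V) (hadj : ∀ (g : G) (u v : V), Γ.Adj u v → Γ.Adj (g • u) (g • v)) (d : ℕ),
    Γ.Connected → (∀ v : V, (Γ.neighborSet v).encard = d) → IsPretransitive G V →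
    (∀ v : V, Finite (stabilizer G v)) →
    (∀ v : V, IsPreprimitive (stabilizer G v) (nbhd Γ hadj v)) →
    ∀ v : V, Nat.card (stabilizer G v) ≤ f d :=
  order_bound

end Pool.Agent.Results.MP_03ba20_al.StabBound
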